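import Mathlib

-- part Pool.Agent.Lib.MP_0f7a95_an.Alg
section

/-!
Closed convex multiplicative subsets of a normed algebra.
-/

set_option autoImplicit false

namespace Pool.Agent.Lib.MP_0f7a95_an

open Set

variable {𝕜 : Type*} [RCLike 𝕜] {A : Type*} [NormedRing A] [NormedAlgebra 𝕜 A]
  [NormedAlgebra ℝ A] [IsScalarTower ℝ 𝕜 A]

/-- A closed convex set containing `1` and closed under products. -/
structure Good (C : Set A) : Prop where
  closed : IsClosed C
  convex : Convex ℝ C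
  one : (1 : A) ∈ C
  mul : ∀ a ∈ C, ∀ b ∈ C, a * b ∈ C

theorem good_closure (T : A) : Good (closure (convexHull ℝ (range fun n : ℕ => T ^ n))) := by
  set C := closure (convexHull ℝ (range fun n : ℕ => T ^ n)) with hC
  have hcv : Convex ℝ C := (convex_convexHull ℝ _).closure
  have hsub : ∀ D : Set A, IsClosed D → Convex ℝ D → (∀ n : ℕ, T ^ n ∈ D) → C ⊆ D := by
    intro D h1 h2 h3
    apply closure_minimal _ h1
    apply convexHull_min _ h2
    rintro _ ⟨n, rfl⟩
    exact h3 n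
  have hT : ∀ n : ℕ, T ^ n ∈ C := fun n => subset_closure (subset_convexHull ℝ _ ⟨n, rfl⟩)
  refine ⟨isClosed_closure, hcv, by simpa using hT 0, ?_⟩
  have h1 : ∀ n : ℕ, ∀ b ∈ C, T ^ n * b ∈ C := by
    intro n
    apply hsub ((LinearMap.mulLeft ℝ (T ^ n)) ⁻¹' C)
    · exact isClosed_closure.preimage (continuous_const.mul continuous_id)
    · exact hcv.linear_preimage _
    · intro m
      show T ^ n * T ^ m ∈ C
      rw [← pow_add]; exact hT _
  intro a ha b hb
  apply hsub ((LinearMap.mulRight ℝ b) ⁻¹' C) _ _ _ ha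
  · exact isClosed_closure.preimage (continuous_id.mul continuous_const)
  · exact hcv.linear_preimage _
  · intro n; exact h1 n b hb

omit [NormedAlgebra ℝ A] in
theorem iter_mem {C : Set A} (hC : IsClosed C) (a : A) (δ : ℝ)
    (h : ∀ u : A, ‖u‖ ≤ δ → a + u ∈ C → ∃ u' : A, ‖u'‖ ≤ ‖u‖ / 2 ∧ a + u' ∈ C)
    (u : A) (hu : ‖u‖ ≤ δ) (hau : a + u ∈ C) : a ∈ C := by
  have hδ : 0 ≤ δ := (norm_nonneg u).trans hu
  have key : ∀ n : ℕ, ∃ v : A, ‖v‖ ≤ δ * (1 / 2) ^ n ∧ a + v ∈ C := by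
    intro n
    induction n with
    | zero => exact ⟨u, by simpa using hu, hau⟩
    | succ n ih =>
      obtain ⟨v, h1, h2⟩ := ih
      have h3 : δ * (1 / 2) ^ n ≤ δ := by
        apply mul_le_of_le_one_right hδ
        exact pow_le_one₀ (by norm_num) (by norm_num)
      obtain ⟨v', h4, h5⟩ := h v (h1.trans h3) h2
      refine ⟨v', ?_, h5⟩
      rw [pow_succ]; linarith
  choose v hv1 hv2 using key
  have ht : Filter.Tendsto v Filter.atTop (nhds 0) := by
    apply squeeze_zero_norm hv1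
    have := (tendsto_pow_atTop_nhds_zero_of_lt_one (r := (1 / 2 : ℝ)) (by norm_num)
      (by norm_num)).const_mul δ
    simpa using this
  have := hC.mem_of_tendsto (ht.const_add a) (Filter.Eventually.of_forall hv2)
  simpa using this

theorem Good.comb4 {C : Set A} (hC : Good C) {x y z t : A} (hx : x ∈ C) (hy : y ∈ C) (hz : z ∈ C)
    (ht : t ∈ C) :
    (1 / 40 : ℝ) • x + (5 / 40 : ℝ) • y + (2 / 40 : ℝ) • z + (32 / 40 : ℝ) • t ∈ C := by
  have h1 := hC.convex hx hy (a := 1 / 6) (b := 5 / 6) (by norm_num) (by norm_num) (by norm_num)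
  have h2 := hC.convex hz ht (a := 2 / 34) (b := 32 / 34) (by norm_num) (by norm_num) (by norm_num)
  have h3 := hC.convex h1 h2 (a := 6 / 40) (b := 34 / 40) (by norm_num) (by norm_num) (by norm_num)
  convert h3 using 1
  module

theorem Good.neg_four {C : Set A} (hC : Good C) (u : A) (hu : ‖u‖ ≤ 1 / 4)
    (h : (-4 : ℝ) • (1 : A) + u ∈ C) : (-4 : ℝ) • (1 : A) ∈ C := by
  refine iter_mem hC.closed _ (1 / 4) ?_ u hu h
  intro v hv hz
  set z := (-4 : ℝ) • (1 : A) + v with hzdef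
  have h2 := hC.mul _ hz _ hz
  have h3 := hC.mul _ h2 _ hz
  have h4 := hC.mul _ h3 _ hz
  have h5 := hC.comb4 h4 h3 h2 hz
  refine ⟨(1 / 40 : ℝ) • (v * v * v * v) + (-11 / 40 : ℝ) • (v * v * v) + (38 / 40 : ℝ) • (v * v),
    ?_, ?_⟩
  · have n2 : ‖v * v‖ ≤ ‖v‖ / 4 := by
      refine (norm_mul_le _ _).trans ?_
      nlinarith [norm_nonneg v]
    have n3 : ‖v * v * v‖ ≤ ‖v‖ / 4 := by
      refine (norm_mul_le _ _).trans ?_
      nlinarith [norm_nonneg v, norm_nonneg (v * v)]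
    have n4 : ‖v * v * v * v‖ ≤ ‖v‖ / 4 := by
      refine (norm_mul_le _ _).trans ?_
      nlinarith [norm_nonneg v, norm_nonneg (v * v * v)]
    refine (norm_add₃_le).trans ?_
    rw [norm_smul, norm_smul, norm_smul]
    have e1 : ‖(1 / 40 : ℝ)‖ = 1 / 40 := by norm_num
    have e2 : ‖(-11 / 40 : ℝ)‖ = 11 / 40 := by
      rw [Real.norm_eq_abs, abs_of_neg (by norm_num)]; norm_num
    have e3 : ‖(38 / 40 : ℝ)‖ = 38 / 40 := by norm_num
    rw [e1, e2, e3]
    nlinarith [norm_nonneg v]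
  · convert h5 using 1
    simp only [hzdef, mul_add, add_mul, smul_mul_assoc, mul_smul_comm, one_mul, mul_one]
    module

theorem Good.real_mem {C : Set A} (hC : Good C) (h : (-4 : ℝ) • (1 : A) ∈ C) (r : ℝ) :
    r • (1 : A) ∈ C := by
  have hp : ∀ n : ℕ, ((16 : ℝ) ^ n) • (1 : A) ∈ C := by
    intro n
    induction n with
    | zero => simpa using hC.one
    | succ n ih =>
      have := hC.mul _ (hC.mul _ ih _ h) _ h
      convert this using 1
      simp only [smul_mul_assoc, mul_smul_comm, one_mul, smul_smul]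
      congr 1
      ring
  have hn : ∀ n : ℕ, (-4 * (16 : ℝ) ^ n) • (1 : A) ∈ C := by
    intro n
    have := hC.mul _ (hp n) _ h
    convert this using 1
    simp only [smul_mul_assoc, mul_smul_comm, one_mul, smul_smul]
  obtain ⟨n, hn'⟩ := pow_unbounded_of_one_lt (|r|) (show (1 : ℝ) < 16 by norm_num)
  have hcv : Convex ℝ ((LinearMap.toSpanSingleton ℝ A 1) ⁻¹' C) := hC.convex.linear_preimage _
  have hoc := hcv.ordConnected
  have h16 : 0 < (16 : ℝ) ^ n := by positivity
  have hr : r ∈ Icc (-4 * (16 : ℝ) ^ n) ((16 : ℝ) ^ n) :=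
    ⟨by have := neg_abs_le r; linarith, by have := le_abs_self r; linarith⟩
  exact hoc.out (hn n) (hp n) hr

theorem Good.smul_real {C : Set A} (hC : Good C) (h : (-4 : ℝ) • (1 : A) ∈ C) (r : ℝ) {a : A}
    (ha : a ∈ C) : r • a ∈ C := by
  have := hC.mul _ (hC.real_mem h r) _ ha
  simpa using this

theorem Good.add {C : Set A} (hC : Good C) (h : (-4 : ℝ) • (1 : A) ∈ C) {a b : A}
    (ha : a ∈ C) (hb : b ∈ C) : a + b ∈ C := by
  have h1 := hC.convex ha hb (a := 1 / 2) (b := 1 / 2) (by norm_num) (by norm_num) (by norm_num)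
  have := hC.smul_real h 2 h1
  convert this using 1
  module

theorem Good.two_I {C : Set A} (hC : Good C) (hI : (RCLike.I : 𝕜) * RCLike.I = -1)
    (h : (-4 : ℝ) • (1 : A) ∈ C) (u : A) (hu : ‖u‖ ≤ 1 / 4)
    (hz : ((2 : 𝕜) * RCLike.I) • (1 : A) + u ∈ C) : ((2 : 𝕜) * RCLike.I) • (1 : A) ∈ C := by
  refine iter_mem hC.closed _ (1 / 4) ?_ u hu hz
  intro v hv hz
  set z := ((2 : 𝕜) * RCLike.I) • (1 : A) + v with hzdef
  have h3 := hC.mul _ (hC.mul _ hz _ hz) _ hz
  have h5 := hC.add h (hC.smul_real h (1 / 8) h3) (hC.smul_real h (12 / 8) hz)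
  refine ⟨((1 / 8 : ℝ) : 𝕜) • (v * v * v) + (((6 / 8 : ℝ) : 𝕜) * RCLike.I) • (v * v), ?_, ?_⟩
  · have n2 : ‖v * v‖ ≤ ‖v‖ / 4 := by
      refine (norm_mul_le _ _).trans ?_
      nlinarith [norm_nonneg v]
    have n3 : ‖v * v * v‖ ≤ ‖v‖ / 4 := by
      refine (norm_mul_le _ _).trans ?_
      nlinarith [norm_nonneg v, norm_nonneg (v * v)]
    refine (norm_add_le _ _).trans ?_
    rw [norm_smul, norm_smul, norm_mul (((6 / 8 : ℝ) : 𝕜)), RCLike.norm_ofReal, RCLike.norm_ofReal]
    have hI0 : (RCLike.I : 𝕜) ≠ 0 := by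
      intro h0; rw [h0] at hI; simp at hI
    rw [RCLike.norm_I_of_ne_zero hI0, abs_of_pos (by norm_num), abs_of_pos (by norm_num)]
    nlinarith [norm_nonneg v]
  · convert h5 using 1
    rw [RCLike.real_smul_eq_coe_smul (K := 𝕜), RCLike.real_smul_eq_coe_smul (K := 𝕜)]
    simp only [hzdef, mul_add, add_mul, smul_mul_assoc, mul_smul_comm, one_mul, mul_one]
    match_scalars
    · linear_combination (-RCLike.I) * hI
    · ring
    · ring
    · linear_combination (-3 / 2 : 𝕜) * hI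

/-- For a suitable scalar `w`, the closed convex hull of the powers of `w + u` is closed under
sums and scalar multiples and contains `u`. -/
theorem exists_scalar (𝕜 : Type*) [RCLike 𝕜] : ∃ w : 𝕜, ∀ {A : Type*} [NormedRing A]
    [NormedAlgebra 𝕜 A] [NormedAlgebra ℝ A] [IsScalarTower ℝ 𝕜 A] (C : Set A), Good C →
    ∀ u : A, ‖u‖ ≤ 1 / 20 → w • (1 : A) + u ∈ C →
      (∀ a ∈ C, ∀ b ∈ C, a + b ∈ C) ∧ (∀ (c : 𝕜), ∀ a ∈ C, c • a ∈ C) := by
  rcases (RCLike.I_mul_I_ax (K := 𝕜)) with hI | hI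
  · refine ⟨((-4 : ℝ) : 𝕜), ?_⟩
    intro A _ _ _ _ C hC u hu h
    rw [← RCLike.real_smul_eq_coe_smul (K := 𝕜)] at h
    have h4 := hC.neg_four u (by linarith) h
    refine ⟨fun a ha b hb => hC.add h4 ha hb, fun c a ha => ?_⟩
    have : c = ((RCLike.re c : ℝ) : 𝕜) := by
      conv_lhs => rw [← RCLike.re_add_im c, hI]
      simp
    rw [this, ← RCLike.real_smul_eq_coe_smul (K := 𝕜)]
    exact hC.smul_real h4 _ ha
  · refine ⟨(2 : 𝕜) * RCLike.I, ?_⟩
    intro A _ _ _ _ C hC u hu h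
    have hI0 : (RCLike.I : 𝕜) ≠ 0 := by
      intro h0; rw [h0] at hI; simp at hI
    have h2 := hC.mul _ h _ h
    have h4 : (-4 : ℝ) • (1 : A) ∈ C := by
      apply hC.neg_four ((((4 : ℝ) : 𝕜) * RCLike.I) • u + u * u)
      · refine (norm_add_le _ _).trans ?_
        rw [norm_smul, norm_mul, RCLike.norm_ofReal, RCLike.norm_I_of_ne_zero hI0,
          abs_of_pos (by norm_num)]
        have := norm_mul_le u u
        nlinarith [norm_nonneg u]
      · convert h2 using 1
        rw [RCLike.real_smul_eq_coe_smul (K := 𝕜)]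
        simp only [mul_add, add_mul, smul_mul_assoc, mul_smul_comm, one_mul, mul_one]
        match_scalars
        · linear_combination (-4 : 𝕜) * hI
        · ring
        · ring
    have h5 := hC.two_I hI h4 u (by linarith) h
    refine ⟨fun a ha b hb => hC.add h4 ha hb, fun c a ha => ?_⟩
    have h6 := hC.add h4 (hC.smul_real h4 (RCLike.re c) ha)
      (hC.smul_real h4 (RCLike.im c / 2) (hC.mul _ h5 _ ha))
    convert h6 using 1
    rw [RCLike.real_smul_eq_coe_smul (K := 𝕜), RCLike.real_smul_eq_coe_smul (K := 𝕜)]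
    simp only [smul_mul_assoc, one_mul]
    conv_lhs => rw [← RCLike.re_add_im c]
    match_scalars
    ring

end Pool.Agent.Lib.MP_0f7a95_an
end

-- part Pool.Agent.Lib.MP_0f7a95_an.Shift
section

/-!
The operator `w + S / 20` on a separable Hilbert space, `S` a unilateral shift.
-/

set_option autoImplicit false

namespace Pool.Agent.Lib.MP_0f7a95_an

open Set
open scoped InnerProductSpace

variable {𝕜 : Type*} [RCLike 𝕜] {X : Type*} [NormedAddCommGroup X] [InnerProductSpace 𝕜 X]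

theorem exists_shift [CompleteSpace X] (b : HilbertBasis ℕ 𝕜 X) :
    ∃ S : X →ₗᵢ[𝕜] X, (∀ k : ℕ, S (b k) = b (k + 1)) ∧ ∀ x, ⟪b 0, S x⟫_𝕜 = 0 := by
  have ho : Orthonormal 𝕜 (fun k : ℕ => b (k + 1)) :=
    b.orthonormal.comp (fun k : ℕ => k + 1) (fun _ _ h => Nat.succ_injective h)
  let S : X →ₗᵢ[𝕜] X := ho.orthogonalFamily.linearIsometry.comp b.repr.toLinearIsometry
  have hS : ∀ k : ℕ, S (b k) = b (k + 1) := by
    intro k
    show ho.orthogonalFamily.linearIsometry (b.repr (b k)) = _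
    rw [b.repr_self, OrthogonalFamily.linearIsometry_apply_single]
    simp
  refine ⟨S, hS, ?_⟩
  have : (innerSL 𝕜 (b 0)).comp S.toContinuousLinearMap = 0 := by
    apply ContinuousLinearMap.ext_on (s := range b)
    · rw [dense_iff_closure_eq, ← Submodule.topologicalClosure_coe, b.dense_span]
      rfl
    · rintro _ ⟨k, rfl⟩
      have := b.orthonormal.2 (i := 0) (j := k + 1) (by omega)
      simpa [hS] using this
  intro x
  exact congrArg (fun f : X →L[𝕜] 𝕜 => f x) this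

theorem exists_eigen [CompleteSpace X] (S : X →ₗᵢ[𝕜] X) (e : X) (he : ‖e‖ = 1) (y : X)
    (hy : ‖y‖ ≤ 1 / 8) : ∃ k : X, k = e - ⟪y, k⟫_𝕜 • S k := by
  let f : X → X := fun k => e - ⟪y, k⟫_𝕜 • S k
  have hin : ∀ k : X, ‖⟪y, k⟫_𝕜‖ ≤ ‖k‖ / 8 := by
    intro k
    refine (norm_inner_le_norm _ _).trans ?_
    nlinarith [norm_nonneg k]
  have hmaps : MapsTo f (Metric.closedBall 0 2) (Metric.closedBall 0 2) := by
    intro k hk
    rw [mem_closedBall_zero_iff] at hk ⊢
    refine (norm_sub_le _ _).trans ?_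
    rw [he, norm_smul, S.norm_map]
    have := hin k
    nlinarith [norm_nonneg k, norm_nonneg (⟪y, k⟫_𝕜)]
  have hc : ContractingWith (1 / 2) (hmaps.restrict f _ _) := by
    refine ⟨by norm_num, LipschitzWith.of_dist_le_mul ?_⟩
    rintro ⟨k, hk⟩ ⟨l, hl⟩
    rw [mem_closedBall_zero_iff] at hk hl
    show dist (f k) (f l) ≤ _ * dist k l
    rw [dist_eq_norm, dist_eq_norm]
    have : f k - f l = -(⟪y, k - l⟫_𝕜 • S k + ⟪y, l⟫_𝕜 • S (k - l)) := by
      simp only [f, inner_sub_right, map_sub]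
      module
    rw [this, norm_neg]
    refine (norm_add_le _ _).trans ?_
    rw [norm_smul, norm_smul, S.norm_map, S.norm_map]
    have h1 := hin (k - l)
    have h2 := hin l
    have : ((1 / 2 : NNReal) : ℝ) = 1 / 2 := by norm_num
    rw [this]
    nlinarith [norm_nonneg k, norm_nonneg l, norm_nonneg (k - l), norm_nonneg (⟪y, k - l⟫_𝕜),
      norm_nonneg (⟪y, l⟫_𝕜)]
  obtain ⟨k, _, hk, _⟩ := hc.exists_fixedPoint' Metric.isClosed_closedBall.isComplete hmaps
    (x := 0) (by simp) (edist_ne_top _ _)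
  exact ⟨k, hk.symm⟩

theorem main [CompleteSpace X] [NormedSpace ℝ X] [IsScalarTower ℝ 𝕜 X] (b : HilbertBasis ℕ 𝕜 X) :
    ∃ T : X →L[𝕜] X, (∃ x : X, Dense (convexHull ℝ (range fun n : ℕ => (T ^ n) x))) ∧
      ¬ Dense {x : X | Dense (convexHull ℝ (range fun n : ℕ => (T ^ n) x))} := by
  let _ : NormedAlgebra ℝ (X →L[𝕜] X) :=
    { (inferInstance : NormedSpace ℝ (X →L[𝕜] X)), (inferInstance : Algebra ℝ (X →L[𝕜] X)) with }
  obtain ⟨S, hS, hS0⟩ := exists_shift b
  obtain ⟨w, hw⟩ := exists_scalar 𝕜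
  let u : X →L[𝕜] X := ((1 / 20 : ℝ) : 𝕜) • S.toContinuousLinearMap
  let T : X →L[𝕜] X := w • (1 : X →L[𝕜] X) + u
  have hb1 : ∀ k, ‖b k‖ = 1 := b.orthonormal.1
  refine ⟨T, ⟨b 0, ?_⟩, ?_⟩
  · have hG := good_closure T
    set C := closure (convexHull ℝ (range fun n : ℕ => T ^ n)) with hC
    have hT : T ∈ C := subset_closure (subset_convexHull ℝ _ ⟨1, pow_one T⟩)
    have hu : ‖u‖ ≤ 1 / 20 := by
      simp only [u]
      rw [norm_smul, RCLike.norm_ofReal, abs_of_pos (by norm_num)]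
      have := S.norm_toContinuousLinearMap_le
      linarith
    obtain ⟨hadd, hsmul⟩ := hw C hG u hu hT
    have hSC : S.toContinuousLinearMap ∈ C := by
      have := hsmul ((20 : ℝ) : 𝕜) _ (hadd _ hT _ (hsmul (-w) _ hG.one))
      convert this using 1
      simp only [T, u]
      match_scalars
      · norm_num
      · ring
    let M : Submodule 𝕜 X :=
      { carrier := {y | ∃ a ∈ C, a (b 0) = y}
        add_mem' := by
          rintro _ _ ⟨a, ha, rfl⟩ ⟨a', ha', rfl⟩
          exact ⟨a + a', hadd _ ha _ ha', rfl⟩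
        zero_mem' := ⟨(0 : 𝕜) • 1, hsmul 0 _ hG.one, by simp⟩
        smul_mem' := by
          rintro c _ ⟨a, ha, rfl⟩
          exact ⟨c • a, hsmul c _ ha, rfl⟩ }
    have hM : ∀ k, b k ∈ M := by
      intro k
      induction k with
      | zero => exact ⟨1, hG.one, rfl⟩
      | succ k ih =>
        obtain ⟨a, ha, h⟩ := ih
        refine ⟨S.toContinuousLinearMap * a, hG.mul _ hSC _ ha, ?_⟩
        show S (a (b 0)) = _
        rw [h, hS]
    have hspan : Submodule.span 𝕜 (range b) ≤ M := by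
      rw [Submodule.span_le]
      rintro _ ⟨k, rfl⟩
      exact hM k
    have hd : Dense (Submodule.span 𝕜 (range b) : Set X) := by
      rw [dense_iff_closure_eq, ← Submodule.topologicalClosure_coe, b.dense_span]
      rfl
    rw [← dense_closure]
    refine hd.mono (fun y hy => ?_)
    obtain ⟨a, ha, rfl⟩ := hspan hy
    let ev : (X →L[𝕜] X) →ₗ[ℝ] X :=
      { toFun := fun a => a (b 0)
        map_add' := fun _ _ => rfl
        map_smul' := fun _ _ => rfl }
    have hev : Continuous ev := (ContinuousLinearMap.apply 𝕜 X (b 0)).continuous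
    have : C ⊆ ev ⁻¹' closure (convexHull ℝ (range fun n : ℕ => (T ^ n) (b 0))) := by
      apply closure_minimal _ (isClosed_closure.preimage hev)
      apply convexHull_min _ ((convex_convexHull ℝ _).closure.linear_preimage ev)
      rintro _ ⟨n, rfl⟩
      exact subset_closure (subset_convexHull ℝ _ ⟨n, rfl⟩)
    exact this ha
  · intro hd
    obtain ⟨x, hx, hx1⟩ := hd.exists_mem_open (U := Metric.ball (b 1) (1 / 8)) Metric.isOpen_ball
      ⟨b 1, by simp⟩
    have hy : ‖x - b 1‖ ≤ 1 / 8 := (mem_ball_iff_norm.1 hx1).le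
    obtain ⟨k, hk⟩ := exists_eigen S (b 0) (hb1 0) (x - b 1) hy
    have h1 : ∀ z, ⟪k, S z⟫_𝕜 = -⟪k, x - b 1⟫_𝕜 * ⟪k, z⟫_𝕜 := by
      intro z
      conv_lhs => rw [hk]
      rw [inner_sub_left, inner_smul_left, hS0, S.inner_map_map, inner_conj_symm]
      ring
    have h2 : ⟪k, b 0⟫_𝕜 = 1 := by
      rw [hk, inner_sub_left, inner_smul_left, ← inner_conj_symm (S k), hS0,
        inner_self_eq_norm_sq_to_K, hb1]
      simp
    have h3 : ⟪k, x⟫_𝕜 = 0 := by
      have e1 : x = S (b 0) + (x - b 1) := by rw [hS]; simp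
      conv_lhs => rw [e1]
      rw [inner_add_right, h1, h2]
      ring
    have h4 : ∀ n : ℕ, ⟪k, (T ^ n) x⟫_𝕜 = 0 := by
      intro n
      induction n with
      | zero => simpa using h3
      | succ n ih =>
        rw [pow_succ']
        show ⟪k, w • ((T ^ n) x) + ((1 / 20 : ℝ) : 𝕜) • S ((T ^ n) x)⟫_𝕜 = 0
        rw [inner_add_right, inner_smul_right, inner_smul_right, h1, ih]
        ring
    let K : Submodule ℝ X := ((innerSL 𝕜 k).ker).restrictScalars ℝ
    have hK : closure (convexHull ℝ (range fun n : ℕ => (T ^ n) x)) ⊆ K := by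
      apply closure_minimal _ (innerSL 𝕜 k).isClosed_ker
      apply convexHull_min _ K.convex
      rintro _ ⟨n, rfl⟩
      exact h4 n
    have h5 : ⟪k, b 0⟫_𝕜 = 0 := hK (hx (b 0))
    rw [h2] at h5
    exact one_ne_zero h5

end Pool.Agent.Lib.MP_0f7a95_an
end
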