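import Mathlib
import Pool.Agent.Lib.MP_0f7a95_an.Shift

/-!
A complex-linear functional whose real part is bounded above on the powers of `a` vanishes on
them, under a condition on the spectrum of `a`.
-/

set_option autoImplicit false

namespace Pool.Agent.Lib.MP_0f7a95_an

open Set Filter Topology
open scoped ComplexConjugate

section Conv

variable {A : Type*} [NormedRing A] [NormedAlgebra ℝ A]

theorem Good.fix {C : Set A} (hC : Good C) {b c u : A} (hb : b ∈ C) (hc : c ∈ C) {t : ℝ}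
    (h0 : 0 ≤ t) (h1 : t ≤ 1) (hn : ‖t • b‖ < 1) (hu : u = (1 - t) • c + t • (b * u)) :
    u ∈ C := by
  have key : ∀ N : ℕ, u + (t • b) ^ N * (1 - u) ∈ C := by
    intro N
    induction N with
    | zero => simpa using hC.one
    | succ N ih =>
      have := hC.convex hc (hC.mul _ hb _ ih) (a := 1 - t) (b := t) (by linarith) h0 (by ring)
      convert this using 1
      rw [mul_add, smul_add, ← add_assoc, ← hu, pow_succ', mul_assoc, smul_mul_assoc]
  have ht : Tendsto (fun N : ℕ => u + (t • b) ^ N * (1 - u)) atTop (𝓝 (u + 0 * (1 - u))) :=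
    ((tendsto_pow_atTop_nhds_zero_of_norm_lt_one hn).mul_const _).const_add _
  simpa using hC.closed.mem_of_tendsto ht (Eventually.of_forall key)

end Conv

variable {A : Type*} [NormedRing A] [NormedAlgebra ℂ A] [CompleteSpace A]

omit [CompleteSpace A] in
theorem mul_res {a : A} {z : ℂ} (hz : z ∉ spectrum ℂ a) :
    a * resolvent a z = z • resolvent a z - 1 := by
  have h := Ring.mul_inverse_cancel _ (spectrum.notMem_iff.1 hz)
  rw [sub_mul, Algebra.algebraMap_eq_smul_one, smul_mul_assoc, one_mul] at h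
  simp only [resolvent, Algebra.algebraMap_eq_smul_one]
  linear_combination (norm := abel) -h

omit [CompleteSpace A] in
theorem res_mul {a : A} {z : ℂ} (hz : z ∉ spectrum ℂ a) :
    resolvent a z * a = z • resolvent a z - 1 := by
  have h := Ring.inverse_mul_cancel _ (spectrum.notMem_iff.1 hz)
  rw [mul_sub, Algebra.algebraMap_eq_smul_one, mul_smul_comm, mul_one] at h
  simp only [resolvent, Algebra.algebraMap_eq_smul_one]
  linear_combination (norm := abel) -h

omit [CompleteSpace A] in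
theorem res_sub {a : A} {z w : ℂ} (hz : z ∉ spectrum ℂ a) (hw : w ∉ spectrum ℂ a) :
    resolvent a w = resolvent a z + (z - w) • (resolvent a z * resolvent a w) := by
  have h1 : resolvent a z * a * resolvent a w = resolvent a z * (a * resolvent a w) :=
    mul_assoc _ _ _
  rw [res_mul hz, mul_res hw, sub_mul, mul_sub, smul_mul_assoc, mul_smul_comm, one_mul,
    mul_one] at h1
  rw [sub_smul]
  linear_combination (norm := abel) -h1

theorem res_diff {a : A} {z : ℂ} (hz : z ∉ spectrum ℂ a) : DifferentiableAt ℂ (resolvent a) z :=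
  (spectrum.hasDerivAt_resolvent_const_left (not_not.1 hz)).differentiableAt

theorem res_mem {a : A} (hρ : ∀ s : ℝ, 1 < s → (s : ℂ) ∉ spectrum ℂ a) {C : Set A} (hC : Good C)
    (ha : a ∈ C) {s : ℝ} (hs : 1 < s) : (s - 1) • resolvent a (s : ℂ) ∈ C := by
  set S := max s (‖a‖ + 1) with hS
  let Z : Set ℝ := Icc s S ∩ (fun r : ℝ => (r - 1) • resolvent a (r : ℂ)) ⁻¹' C
  have hZc : IsClosed Z := by
    apply ContinuousOn.preimage_isClosed_of_isClosed _ isClosed_Icc hC.closed
    intro r hr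
    apply ContinuousAt.continuousWithinAt
    exact (continuousAt_id.sub continuousAt_const).smul
      ((res_diff (hρ r (hs.trans_le hr.1))).continuousAt.comp (f := fun r : ℝ => (r : ℂ))
        Complex.continuous_ofReal.continuousAt)
  have hS1 : 1 < S := hs.trans_le (le_max_left _ _)
  have hSa : ‖a‖ < S := (lt_add_one _).trans_le (le_max_right _ _)
  have hSZ : S ∈ Z := by
    refine ⟨⟨le_max_left _ _, le_rfl⟩, ?_⟩
    have hS0 : 0 < S := by linarith
    refine hC.fix ha hC.one (t := S⁻¹) (by positivity) (inv_le_one_of_one_le₀ hS1.le) ?_ ?_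
    · rw [norm_smul, Real.norm_eq_abs, abs_of_pos (by positivity), inv_mul_lt_iff₀ hS0]
      linarith
    · have hS' : (S : ℂ) ≠ 0 := by exact_mod_cast hS0.ne'
      rw [mul_smul_comm, mul_res (hρ S hS1)]
      simp only [← Complex.coe_smul]
      match_scalars
      · field_simp
      · field_simp; ring
  obtain ⟨m, ⟨hm, hmC⟩, hmin⟩ := (isCompact_Icc.of_isClosed_subset hZc
    inter_subset_left).exists_isLeast ⟨S, hSZ⟩
  rcases hm.1.eq_or_lt with h | h
  · rw [h]; exact hmC
  exfalso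
  have hm1 : 1 < m := hs.trans h
  set R := resolvent a (m : ℂ) with hR
  set d := min (m - s) (‖R‖ + 1)⁻¹ with hd
  have hd0 : 0 < d := lt_min (by linarith) (by positivity)
  have hd1 : d ≤ m - s := min_le_left _ _
  have hd2 : d * ‖R‖ < 1 := by
    have : d ≤ (‖R‖ + 1)⁻¹ := min_le_right _ _
    rw [le_inv_comm₀ hd0 (by positivity), ← one_div, le_div_iff₀ hd0] at this
    nlinarith
  have : m - d ∈ Z := by
    refine ⟨⟨by linarith, by linarith [hm.2]⟩, ?_⟩
    have h3 : 0 < m - 1 := by linarith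
    refine hC.fix hmC hmC (t := d / (m - 1)) (by positivity) ?_ ?_ ?_
    · rw [div_le_one h3]; linarith
    · rw [smul_smul, div_mul_cancel₀ _ h3.ne', norm_smul, Real.norm_eq_abs, abs_of_pos hd0]
      exact hd2
    · have h4 : ((m : ℂ) - 1) ≠ 0 := by exact_mod_cast h3.ne'
      have h5 := res_sub (hρ m hm1) (hρ (m - d) (by linarith))
      show (m - d - 1) • resolvent a ((m - d : ℝ) : ℂ) = _
      conv_lhs => rw [h5]
      simp only [← Complex.coe_smul, smul_mul_assoc, mul_smul_comm]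
      match_scalars
      · field_simp; ring
      · field_simp; ring
  linarith [hmin this]

theorem growth {a : A} (hρ : ∀ s : ℝ, 1 < s → (s : ℂ) ∉ spectrum ℂ a) (φ : A →L[ℂ] ℂ) {c : ℝ}
    (hc : ∀ n : ℕ, (φ (a ^ n)).re ≤ c) {s : ℝ} (hs : 1 < s) :
    ∃ D : ℝ, ∀ n : ℕ, |(φ (a ^ n)).re| ≤ D * s ^ n := by
  have hG := good_closure a
  set C := closure (convexHull ℝ (range fun n : ℕ => a ^ n)) with hC
  have hp : ∀ n : ℕ, a ^ n ∈ C := fun n => subset_closure (subset_convexHull ℝ _ ⟨n, rfl⟩)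
  let ψ : A →L[ℝ] ℝ := Complex.reCLM.comp (φ.restrictScalars ℝ)
  have hle : ∀ b ∈ C, (φ b).re ≤ c := by
    have : C ⊆ {b | ψ b ≤ c} := by
      apply closure_minimal _ (isClosed_le ψ.continuous continuous_const)
      apply convexHull_min _ (convex_halfSpace_le ψ.toLinearMap.isLinear c)
      rintro _ ⟨n, rfl⟩
      exact hc n
    exact this
  have hB := res_mem hρ hG (by simpa using hp 1) hs
  set B := (s - 1) • resolvent a (s : ℂ) with hBdef
  have hid : ∀ n : ℕ, (φ (a ^ (n + 1) * B)).re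
      = s * (φ (a ^ n * B)).re - (s - 1) * (φ (a ^ n)).re := by
    intro n
    have : a ^ (n + 1) * B = s • (a ^ n * B) - (s - 1) • a ^ n := by
      rw [pow_succ, mul_assoc, hBdef, mul_smul_comm, mul_res (hρ s hs)]
      simp only [← Complex.coe_smul, mul_smul_comm, mul_sub, mul_one]
      module
    rw [this]
    exact (ψ.map_sub _ _).trans (by rw [ψ.map_smul, ψ.map_smul]; rfl)
  have hu : ∀ n : ℕ, (φ (a ^ n * B)).re ≤ c := fun n => hle _ (hG.mul _ (hp n) _ hB)
  have hu2 : ∀ n : ℕ, c - (φ (a ^ n * B)).re ≤ (c - (φ B).re) * s ^ n := by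
    intro n
    induction n with
    | zero => simp
    | succ n ih =>
      rw [hid, pow_succ]
      nlinarith [hc n]
  refine ⟨|c| + s * (c - (φ B).re) / (s - 1), fun n => ?_⟩
  have h1 : 1 ≤ s ^ n := one_le_pow₀ hs.le
  have h2 : c - (φ (a ^ n)).re ≤ s * (c - (φ B).re) / (s - 1) * s ^ n := by
    rw [div_mul_eq_mul_div, le_div_iff₀ (by linarith)]
    have := hu (n + 1)
    rw [hid] at this
    nlinarith [hu2 n]
  have h3 : |c| ≤ |c| * s ^ n := le_mul_of_one_le_right (abs_nonneg c) h1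
  rw [add_mul, abs_le]
  constructor <;> linarith [hc n, le_abs_self c, neg_abs_le c]

theorem res_hasSum (a : A) (φ : A →L[ℂ] ℂ) {z : ℂ} (hz : ‖a‖ < ‖z‖) (hz' : z ∉ spectrum ℂ a) :
    HasSum (fun n : ℕ => φ (a ^ n) * z⁻¹ ^ (n + 1)) (φ (resolvent a z)) := by
  have hz1 : 0 < ‖z‖ := (norm_nonneg a).trans_lt hz
  have hz0 : z ≠ 0 := norm_pos_iff.1 hz1
  have hn : ‖z⁻¹ • a‖ < 1 := by
    rw [norm_smul, norm_inv, inv_mul_lt_iff₀ hz1]; simpa using hz
  have h1 := hasSum_geom_series_inverse _ hn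
  have h2 := Ring.mul_inverse_cancel _ (isUnit_one_sub_of_norm_lt_one hn)
  set V := Ring.inverse (1 - z⁻¹ • a)
  have h3 : resolvent a z = z⁻¹ • V := by
    calc resolvent a z = resolvent a z * ((1 - z⁻¹ • a) * V) := by rw [h2, mul_one]
      _ = z⁻¹ • V := by
        rw [← mul_assoc, mul_sub, mul_smul_comm, res_mul hz', mul_one, smul_sub, smul_smul,
          inv_mul_cancel₀ hz0, one_smul, sub_sub_cancel, smul_mul_assoc, one_mul]
  rw [h3]
  convert φ.hasSum (h1.const_smul z⁻¹) using 2 with n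
  rw [smul_pow, map_smul, map_smul, smul_eq_mul, smul_eq_mul]
  ring

theorem core {a : A} {K : Set ℂ} (hK : IsCompact K) (hσ : spectrum ℂ a ⊆ K)
    (h1 : ∀ z ∈ K, 1 < ‖z‖) (h2 : ∀ z ∈ K, conj z ∉ K)
    (h3 : IsPreconnected {z : ℂ | 1 < ‖z‖ ∧ z ∉ K ∧ conj z ∉ K}) (φ : A →L[ℂ] ℂ) {c : ℝ}
    (hc : ∀ n : ℕ, (φ (a ^ n)).re ≤ c) (n : ℕ) : φ (a ^ n) = 0 := by
  have hρ : ∀ s : ℝ, 1 < s → (s : ℂ) ∉ spectrum ℂ a := fun s _ h =>
    h2 _ (hσ h) (by rw [Complex.conj_ofReal]; exact hσ h)
  let G : ℂ → ℂ := fun z => ∑' n : ℕ, (φ (a ^ n) + conj (φ (a ^ n))) * z⁻¹ ^ (n + 1)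
  let g : ℂ → ℂ := fun z => φ (resolvent a z)
  let h : ℂ → ℂ := conj ∘ g ∘ conj
  have hg : ∀ z, z ∉ K → DifferentiableAt ℂ g z := fun z hz =>
    φ.differentiableAt.comp z (res_diff fun h => hz (hσ h))
  have hh : ∀ z, conj z ∉ K → DifferentiableAt ℂ h z := fun z hz =>
    differentiableAt_conj_conj_iff.2 (hg _ hz)
  have hG : ∀ z, 1 < ‖z‖ → DifferentiableAt ℂ G z := by
    intro z hz
    obtain ⟨r, hr1, hr2⟩ := exists_between hz
    obtain ⟨s, hs1, hs2⟩ := exists_between hr1
    obtain ⟨D, hD⟩ := growth hρ φ hc hs1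
    have hU : IsOpen {w : ℂ | r < ‖w‖} := isOpen_lt continuous_const continuous_norm
    have hr0 : 0 < r := by linarith
    have hsum : Summable fun n : ℕ => 2 * D * (s / r) ^ n :=
      (summable_geometric_of_lt_one (by positivity) ((div_lt_one hr0).2 hs2)).mul_left _
    refine (Complex.differentiableOn_tsum_of_summable_norm hsum (fun n w hw => ?_) hU
      (fun n w hw => ?_)).differentiableAt (hU.mem_nhds hr2)
    · have hw0 : w ≠ 0 := norm_pos_iff.1 (hr0.trans hw)
      exact (((differentiableAt_id.inv hw0).pow _).const_mul _).differentiableWithinAt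
    · have hw' : r < ‖w‖ := hw
      have e1 : ‖w‖⁻¹ ≤ r⁻¹ := inv_anti₀ hr0 hw'.le
      have e2 : ‖w‖⁻¹ ^ (n + 1) ≤ r⁻¹ ^ n := by
        rw [pow_succ]
        refine (mul_le_of_le_one_right (by positivity) ?_).trans (by gcongr)
        exact e1.trans (inv_le_one_of_one_le₀ hr1.le)
      rw [norm_mul, norm_pow, norm_inv, Complex.add_conj, Complex.norm_real, Real.norm_eq_abs,
        abs_mul, abs_two, div_eq_mul_inv, mul_pow]
      have e3 := hD n
      calc 2 * |(φ (a ^ n)).re| * ‖w‖⁻¹ ^ (n + 1) ≤ 2 * (D * s ^ n) * r⁻¹ ^ n := by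
            have := (abs_nonneg _).trans e3
            gcongr
        _ = _ := by ring
  obtain ⟨M, hM⟩ := hK.isBounded.exists_norm_le
  have hc1 : Continuous fun z : ℂ => conj z := Complex.continuous_conj
  have hV : IsOpen {z : ℂ | 1 < ‖z‖ ∧ conj z ∉ K} :=
    (isOpen_lt continuous_const continuous_norm).inter (hK.isClosed.isOpen_compl.preimage hc1)
  have hΩ : IsOpen {z : ℂ | 1 < ‖z‖ ∧ z ∉ K ∧ conj z ∉ K} :=
    (isOpen_lt continuous_const continuous_norm).inter
      (hK.isClosed.isOpen_compl.inter (hK.isClosed.isOpen_compl.preimage hc1))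
  set ρ : ℝ := max (max 1 M) ‖a‖ with hρdef
  have hbig : ∀ z : ℂ, ρ < ‖z‖ → (1 < ‖z‖ ∧ z ∉ K ∧ conj z ∉ K) ∧ G z - h z - g z = 0 := by
    intro z hz
    simp only [hρdef, max_lt_iff] at hz
    have k1 : z ∉ K := fun h => (hM z h).not_gt hz.1.2
    have k2 : conj z ∉ K := fun h => (hM _ h).not_gt (by simpa using hz.1.2)
    refine ⟨⟨hz.1.1, k1, k2⟩, ?_⟩
    have s1 := res_hasSum a φ hz.2 fun h => k1 (hσ h)
    have s2 := Complex.hasSum_conj'.2
      (res_hasSum a φ (z := conj z) (by simpa using hz.2) fun h => k2 (hσ h))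
    have s3 : HasSum (fun n : ℕ => (φ (a ^ n) + conj (φ (a ^ n))) * z⁻¹ ^ (n + 1)) (g z + h z) := by
      convert s1.add s2 using 2 with n
      · simp [add_mul]
      · rfl
    simp only [G, s3.tsum_eq]
    ring
  have hzero : EqOn (fun z => G z - h z - g z) 0 {z : ℂ | 1 < ‖z‖ ∧ z ∉ K ∧ conj z ∉ K} := by
    have hz0 : ρ < ‖((|ρ| + 1 : ℝ) : ℂ)‖ := by
      rw [Complex.norm_real, Real.norm_eq_abs, abs_of_pos (by positivity)]
      linarith [le_abs_self ρ]
    refine AnalyticOnNhd.eqOn_zero_of_preconnected_of_eventuallyEq_zero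
      (DifferentiableOn.analyticOnNhd (fun z hz => ?_) hΩ) h3 (hbig _ hz0).1 ?_
    · exact (((hG z hz.1).sub (hh z hz.2.2)).sub (hg z hz.2.1)).differentiableWithinAt
    · filter_upwards [(isOpen_lt continuous_const continuous_norm).mem_nhds hz0] with z hz
      exact (hbig z hz).2
  classical
  let E : ℂ → ℂ := fun z => if z ∈ K then G z - h z else g z
  have hE : Differentiable ℂ E := by
    intro z
    by_cases hz : z ∈ K
    · refine ((hG z (h1 z hz)).sub (hh z (h2 z hz))).congr_of_eventuallyEq ?_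
      filter_upwards [hV.mem_nhds ⟨h1 z hz, h2 z hz⟩] with w hw
      by_cases hw' : w ∈ K
      · simp [E, hw']
      · have := hzero ⟨hw.1, hw', hw.2⟩
        simp only [E, hw', if_false, Pi.sub_apply]
        exact (sub_eq_zero.1 this).symm
    · refine (hg z hz).congr_of_eventuallyEq ?_
      filter_upwards [hK.isClosed.isOpen_compl.mem_nhds hz] with w hw
      exact if_neg hw
  have hlim : ∀ b : A, Tendsto (fun z => φ (b * resolvent a z)) (cocompact ℂ) (𝓝 0) := by
    intro b
    have := (φ.continuous.tendsto _).comp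
      ((spectrum.resolvent_tendsto_cobounded (𝕜 := ℂ) a).const_mul b)
    rw [Metric.cobounded_eq_cocompact] at this
    simpa [Function.comp_def] using this
  have hE0 : ∀ z, E z = 0 := by
    refine fun z => hE.apply_eq_of_tendsto_cocompact z ((hlim 1).congr' ?_)
    filter_upwards [hK.compl_mem_cocompact] with z hz
    rw [one_mul]
    exact (if_neg hz).symm
  have step : ∀ n : ℕ, (∀ z, z ∉ K → φ (a ^ n * resolvent a z) = 0) →
      φ (a ^ n) = 0 ∧ ∀ z, z ∉ K → φ (a ^ (n + 1) * resolvent a z) = 0 := by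
    intro n hn
    have e : ∀ z, z ∉ K → φ (a ^ (n + 1) * resolvent a z) = -φ (a ^ n) := by
      intro z hz
      rw [pow_succ, mul_assoc, mul_res fun h => hz (hσ h), mul_sub, mul_smul_comm, map_sub,
        map_smul, hn z hz, mul_one, smul_zero, zero_sub]
    have e0 : -φ (a ^ n) = 0 := by
      refine tendsto_nhds_unique (tendsto_const_nhds.congr' ?_) (hlim (a ^ (n + 1)))
      filter_upwards [hK.compl_mem_cocompact] with z hz
      exact (e z hz).symm
    exact ⟨neg_eq_zero.1 e0, fun z hz => (e z hz).trans e0⟩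
  have all : ∀ n : ℕ, ∀ z, z ∉ K → φ (a ^ n * resolvent a z) = 0 := by
    intro n
    induction n with
    | zero =>
      intro z hz
      rw [pow_zero, one_mul]
      exact (if_neg hz).symm.trans (hE0 z)
    | succ n ih => exact (step n ih).2
  exact (step n (all n)).1

end Pool.Agent.Lib.MP_0f7a95_an
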