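import Mathlib
import Pool.Agent.Lib.MP_0f7a95_an.Spec

/-!
Closed convex hulls of orbits under the spectral condition, and density of cyclic vectors.
-/

set_option autoImplicit false

namespace Pool.Agent.Lib.MP_0f7a95_an

open Set Filter Topology Polynomial
open scoped ComplexConjugate

variable {X : Type*} [NormedAddCommGroup X] [NormedSpace ℂ X]

theorem vanish {S : Set X} (f : X →L[ℂ] ℂ) (h : ∀ y ∈ S, f y = 0) :
    ∀ y ∈ closure (Submodule.span ℂ S : Set X), f y = 0 := by
  have : closure (Submodule.span ℂ S : Set X) ⊆ (f.ker : Set X) :=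
    closure_minimal (Submodule.span_le.2 h) f.isClosed_ker
  exact this

theorem hull_eq [CompleteSpace X] (T : X →L[ℂ] X) {K : Set ℂ} (hK : IsCompact K)
    (hσ : spectrum ℂ T ⊆ K) (h1 : ∀ z ∈ K, 1 < ‖z‖) (h2 : ∀ z ∈ K, conj z ∉ K)
    (h3 : IsPreconnected {z : ℂ | 1 < ‖z‖ ∧ z ∉ K ∧ conj z ∉ K}) (x : X) :
    closure (convexHull ℝ (range fun n : ℕ => (T ^ n) x))
      = closure (Submodule.span ℂ (range fun n : ℕ => (T ^ n) x) : Set X) := by
  apply Subset.antisymm
  · exact closure_mono (convexHull_min Submodule.subset_span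
      ((Submodule.span ℂ _).restrictScalars ℝ).convex)
  · intro y hy
    by_contra hn
    obtain ⟨f, u, hf, hu⟩ := RCLike.geometric_hahn_banach_closed_point (𝕜 := ℂ)
      (convex_convexHull ℝ _).closure isClosed_closure hn
    have hb : ∀ n : ℕ, (f ((T ^ n) x)).re < u := fun n =>
      hf _ (subset_closure (subset_convexHull ℝ _ ⟨n, rfl⟩))
    have h0 : ∀ n : ℕ, f ((T ^ n) x) = 0 :=
      core hK hσ h1 h2 h3 (f.comp (ContinuousLinearMap.apply ℂ X x)) (fun n => (hb n).le)
    have e1 := hb 0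
    rw [h0] at e1
    rw [vanish f (by rintro _ ⟨n, rfl⟩; exact h0 n) y hy] at hu
    exact lt_asymm e1 hu

theorem dense_span_iff {S : Set X} : Dense (Submodule.span ℂ S : Set X) ↔
    ∀ f : X →L[ℂ] ℂ, (∀ y ∈ S, f y = 0) → f = 0 := by
  refine ⟨fun h f hf => ContinuousLinearMap.ext fun y => vanish f hf y (h y), fun h y => ?_⟩
  by_contra hn
  obtain ⟨f, u, hf, hu⟩ := RCLike.geometric_hahn_banach_closed_point (𝕜 := ℂ)
    ((Submodule.span ℂ S).restrictScalars ℝ).convex.closure isClosed_closure hn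
  have h0 : f = 0 := by
    refine h f fun z hz => ?_
    by_contra hz0
    have := hf (((u : ℂ) / f z) • z)
      (subset_closure (Submodule.smul_mem _ _ (Submodule.subset_span hz)))
    rw [map_smul, smul_eq_mul, div_mul_cancel₀ _ hz0] at this
    simp at this
  have := hf 0 (subset_closure (Submodule.zero_mem _))
  rw [h0] at this hu
  exact lt_asymm this hu

theorem exists_poly (T : X →L[ℂ] X) (x : X) {y : X}
    (hy : y ∈ Submodule.span ℂ (range fun n : ℕ => (T ^ n) x)) : ∃ p : ℂ[X], aeval T p x = y := by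
  induction hy using Submodule.span_induction with
  | mem _ h => obtain ⟨n, rfl⟩ := h; exact ⟨Polynomial.X ^ n, by simp⟩
  | zero => exact ⟨0, by simp⟩
  | add _ _ _ _ h1 h2 =>
    obtain ⟨p, rfl⟩ := h1
    obtain ⟨q, rfl⟩ := h2
    exact ⟨p + q, by simp⟩
  | smul c _ _ h => obtain ⟨p, rfl⟩ := h; exact ⟨c • p, by simp⟩

theorem approx_poly (T : X →L[ℂ] X) {x : X}
    (hx : Dense (Submodule.span ℂ (range fun n : ℕ => (T ^ n) x) : Set X)) {U : Set X}
    (hU : IsOpen U) (hne : U.Nonempty) : ∃ p : ℂ[X], aeval T p x ∈ U := by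
  obtain ⟨y, hy, hyU⟩ := hx.exists_mem_open hU hne
  obtain ⟨p, rfl⟩ := exists_poly T x hy
  exact ⟨p, hyU⟩

theorem dense_cyclic (T : X →L[ℂ] X) {x : X}
    (hx : Dense (Submodule.span ℂ (range fun n : ℕ => (T ^ n) x) : Set X))
    (hi : interior {l : ℂ | ∃ f : X →L[ℂ] ℂ, f ≠ 0 ∧ ∀ y, f (T y) = l * f y} = ∅) :
    Dense {x : X | Dense (Submodule.span ℂ (range fun n : ℕ => (T ^ n) x) : Set X)} := by
  set Y := {x : X | Dense (Submodule.span ℂ (range fun n : ℕ => (T ^ n) x) : Set X)} with hY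
  set E := {l : ℂ | ∃ f : X →L[ℂ] ℂ, f ≠ 0 ∧ ∀ y, f (T y) = l * f y} with hE
  have a1 : ∀ l ∉ E, MapsTo (fun y => T y - l • y) Y Y := by
    intro l hl y hy
    refine dense_span_iff.2 fun f hf => ?_
    by_contra hf0
    refine hl ⟨f, hf0, fun z => ?_⟩
    have := dense_span_iff.1 hy (f.comp (T - l • 1)) (by
      rintro _ ⟨n, rfl⟩
      refine Eq.trans ?_ (hf _ ⟨n, rfl⟩)
      have e : T ((T ^ n) y) = (T ^ n) (T y) :=
        congrArg (fun S : X →L[ℂ] X => S y) ((pow_succ' T n).symm.trans (pow_succ T n))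
      show f (T ((T ^ n) y) - l • (T ^ n) y) = f ((T ^ n) (T y - l • y))
      rw [e, map_sub (T ^ n), map_smul (T ^ n)])
    have h2 := congrArg (fun g : X →L[ℂ] ℂ => g z) this
    simpa [sub_eq_zero] using h2
  have a2 : ∀ l : ℂ, MapsTo (fun y => T y - l • y) (closure Y) (closure Y) := by
    intro l y hy
    have hd : Dense Eᶜ := interior_eq_empty_iff_dense_compl.1 hi
    have hc : IsClosed {l : ℂ | T y - l • y ∈ closure Y} :=
      isClosed_closure.preimage (f := fun l : ℂ => T y - l • y) (by fun_prop)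
    refine closure_minimal (s := Eᶜ) (fun l hl => ?_) hc (hd l)
    exact (a1 l hl).closure (by fun_prop) hy
  have a3 : ∀ c : ℂ, c • x ∈ closure Y := by
    intro c
    have hc : IsClosed {c : ℂ | c • x ∈ closure Y} :=
      isClosed_closure.preimage (f := fun c : ℂ => c • x) (by fun_prop)
    refine closure_minimal (s := ({0}ᶜ : Set ℂ)) (fun c hc0 => ?_) hc
      (dense_compl_singleton (0 : ℂ) c)
    refine subset_closure (s := Y) ?_
    refine dense_span_iff.2 fun f hf => dense_span_iff.1 hx f ?_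
    rintro _ ⟨n, rfl⟩
    have := hf _ ⟨n, rfl⟩
    simp only [map_smul, smul_eq_mul, mul_eq_zero] at this
    exact this.resolve_left hc0
  have a4 : ∀ (n : ℕ) (p : ℂ[X]), p.natDegree = n → aeval T p x ∈ closure Y := by
    intro n
    induction n with
    | zero =>
      intro p hp
      rw [eq_C_of_natDegree_eq_zero hp]
      simpa [Algebra.algebraMap_eq_smul_one] using a3 (p.coeff 0)
    | succ n ih =>
      intro p hp
      obtain ⟨l, hl⟩ := Complex.exists_root (f := p) (natDegree_pos_iff_degree_pos.1 (by omega))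
      obtain ⟨q, rfl⟩ := dvd_iff_isRoot.2 hl
      have hq : q ≠ 0 := by rintro rfl; simp at hp
      rw [natDegree_mul (X_sub_C_ne_zero l) hq, natDegree_X_sub_C] at hp
      simpa [Algebra.algebraMap_eq_smul_one] using a2 l (ih q (by omega))
  rw [← dense_closure]
  refine hx.mono fun y hy => ?_
  obtain ⟨p, rfl⟩ := exists_poly T x hy
  exact a4 _ p rfl

theorem poly_root {p : ℂ[X]} {l : ℂ} {r : ℝ} (hr : 0 < r)
    (h : ∀ z ∈ Metric.closedBall l r, ‖p.eval z - (z - l)‖ < r / 2) :
    ∃ z ∈ Metric.closedBall l r, p.eval z = 0 := by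
  by_contra hn
  push Not at hn
  have hd : DiffContOnCl ℂ (fun z => (p.eval z)⁻¹) (Metric.ball l r) := by
    apply DifferentiableOn.diffContOnCl
    rw [closure_ball l hr.ne']
    exact p.differentiable.differentiableOn.inv hn
  have h1 := Complex.norm_le_of_forall_mem_frontier_norm_le Metric.isBounded_ball hd
    (C := (r / 2)⁻¹) (fun z hz => ?_) (subset_closure (Metric.mem_ball_self hr))
  · have h2 := h l (Metric.mem_closedBall_self hr.le)
    have h3 := norm_pos_iff.2 (hn l (Metric.mem_closedBall_self hr.le))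
    rw [norm_inv, inv_le_inv₀ h3 (by positivity)] at h1
    simp only [sub_self, sub_zero] at h2
    linarith
  · rw [frontier_ball l hr.ne'] at hz
    have h2 := h z (Metric.sphere_subset_closedBall hz)
    have h3 := norm_sub_norm_le (z - l) (p.eval z)
    rw [mem_sphere_iff_norm.1 hz, norm_sub_rev] at h3
    rw [norm_inv]
    exact inv_anti₀ (by positivity) (by linarith)

theorem not_dense_cyclic (T : X →L[ℂ] X) {x : X}
    (hx : Dense (Submodule.span ℂ (range fun n : ℕ => (T ^ n) x) : Set X))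
    (hd : Dense {x : X | Dense (Submodule.span ℂ (range fun n : ℕ => (T ^ n) x) : Set X)}) :
    interior {l : ℂ | ∃ f : X →L[ℂ] ℂ, f ≠ 0 ∧ ∀ y, f (T y) = l * f y} = ∅ := by
  set U := interior {l : ℂ | ∃ f : X →L[ℂ] ℂ, f ≠ 0 ∧ ∀ y, f (T y) = l * f y} with hU
  by_contra hne
  let E : ℕ → Set ℂ := fun n => {l | ∀ p : ℂ[X], ‖p.eval l‖ ≤ (n + 1 : ℝ) * ‖aeval T p x‖}
  have hE : ∀ n, IsClosed (E n ∪ Uᶜ) := by
    intro n
    refine IsClosed.union ?_ isOpen_interior.isClosed_compl
    simp only [E, ofPred_forall]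
    exact isClosed_iInter fun p => isClosed_le p.continuous.norm continuous_const
  have hcov : ⋃ n, (E n ∪ Uᶜ) = univ := by
    refine eq_univ_of_forall fun l => mem_iUnion.2 ?_
    by_cases hl : l ∈ U
    swap
    · exact ⟨0, Or.inr hl⟩
    obtain ⟨f, hf0, hf⟩ := interior_subset hl
    have e1 : ∀ n : ℕ, f ((T ^ n) x) = l ^ n * f x := by
      intro n
      induction n with
      | zero => simp
      | succ n ih =>
        rw [pow_succ' T]
        show f (T ((T ^ n) x)) = _
        rw [hf, ih]; ring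
    have e2 : ∀ p : ℂ[X], f (aeval T p x) = p.eval l * f x := by
      intro p
      induction p using Polynomial.induction_on' with
      | add p q hp hq => simp [hp, hq, add_mul]
      | monomial n c =>
        rw [aeval_monomial, Algebra.algebraMap_eq_smul_one, smul_mul_assoc, one_mul, eval_monomial]
        show f (c • (T ^ n) x) = _
        rw [map_smul, e1, smul_eq_mul, mul_assoc]
    have e3 : f x ≠ 0 := fun h0 => hf0 (dense_span_iff.1 hx f (by
      rintro _ ⟨n, rfl⟩
      exact (e1 n).trans (by rw [h0, mul_zero])))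
    have e4 := norm_pos_iff.2 e3
    obtain ⟨n, hn⟩ := exists_nat_ge (‖f‖ / ‖f x‖)
    refine ⟨n, Or.inl fun p => ?_⟩
    have e5 := f.le_opNorm (aeval T p x)
    rw [e2, norm_mul] at e5
    rw [div_le_iff₀ e4] at hn
    refine le_of_mul_le_mul_right (e5.trans ?_) e4
    nlinarith [norm_nonneg (aeval T p x), mul_nonneg (norm_nonneg (aeval T p x)) e4.le]
  obtain ⟨l, hl1, hl2⟩ := (dense_iUnion_interior_of_closed hE hcov).exists_mem_open
    isOpen_interior (nonempty_iff_ne_empty.2 hne)
  obtain ⟨n, hn⟩ := mem_iUnion.1 hl1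
  obtain ⟨r, hr, hsub⟩ := Metric.nhds_basis_closedBall.mem_iff.1
    ((isOpen_interior.inter isOpen_interior).mem_nhds ⟨hn, hl2⟩)
  have hEn : ∀ z ∈ Metric.closedBall l r, ∀ p : ℂ[X],
      ‖p.eval z‖ ≤ (n + 1 : ℝ) * ‖aeval T p x‖ := fun z hz =>
    (interior_subset (hsub hz).1).resolve_right (not_not.2 (hsub hz).2)
  have hN : (0 : ℝ) < n + 1 := by positivity
  let V : Set X := {y | (n + 1 : ℝ) * ‖y - aeval T (Polynomial.X - C l) x‖ < r / 2}
  have hV : IsOpen V := isOpen_lt (by fun_prop) continuous_const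
  obtain ⟨y, hy, hyV⟩ := hd.exists_mem_open hV ⟨aeval T (Polynomial.X - C l) x, by
    simp only [V, mem_ofPred_eq, sub_self, norm_zero, mul_zero]; positivity⟩
  obtain ⟨q, hq⟩ := approx_poly T hy (U := {w | (n + 1 : ℝ) * ‖w - x‖ < 1})
    (isOpen_lt (by fun_prop) continuous_const) ⟨x, by simp⟩
  obtain ⟨p, hp1, hp2⟩ := approx_poly T hx
    (U := V ∩ {w | (n + 1 : ℝ) * ‖aeval T q w - x‖ < 1})
    (hV.inter (isOpen_lt (by fun_prop) continuous_const)) ⟨y, hyV, hq⟩
  obtain ⟨z, hz, hz0⟩ := poly_root (p := p) (l := l) hr fun z hz => by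
    have := hEn z hz (p - (Polynomial.X - C l))
    rw [map_sub, sub_apply, eval_sub, eval_sub, eval_X, eval_C] at this
    exact this.trans_lt hp1
  have := hEn z hz (q * p - 1)
  rw [map_sub, map_mul, map_one, sub_apply, mul_apply_eq_comp,
    one_apply_eq_self, eval_sub, eval_mul, hz0, eval_one] at this
  have h2 := this.trans_lt hp2
  simp at h2

end Pool.Agent.Lib.MP_0f7a95_an
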