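import Mathlib

/-!
Disjoint compact plane sets with connected complements have a union with connected complement
(a case of Janiszewski's theorem, by continuous logarithms).
-/

set_option autoImplicit false

namespace Pool.Agent.Lib.MP_0f7a95_an

open Set Filter Topology Complex Metric
open scoped ComplexConjugate

/-- `z - a` has a continuous logarithm on `S`. -/
def HasLog (S : Set ℂ) (a : ℂ) : Prop :=
  ∃ L : ℂ → ℂ, ContinuousOn L S ∧ ∀ z ∈ S, exp (L z) = z - a

theorem HasLog.move {S : Set ℂ} {a b : ℂ} (h : HasLog S a) (hb : ∀ z ∈ S, ‖b - a‖ < ‖z - b‖) :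
    HasLog S b := by
  obtain ⟨L, hL, hL'⟩ := h
  have h0 : ∀ z ∈ S, z - b ≠ 0 := fun z hz => norm_pos_iff.1 ((norm_nonneg _).trans_lt (hb z hz))
  have h1 : ∀ z ∈ S, 1 + (b - a) / (z - b) ∈ slitPlane := fun z hz =>
    mem_slitPlane_of_norm_lt_one (by
      rw [norm_div, div_lt_one (norm_pos_iff.2 (h0 z hz))]; exact hb z hz)
  refine ⟨fun z => L z - log (1 + (b - a) / (z - b)), hL.sub (ContinuousOn.clog ?_ h1),
    fun z hz => ?_⟩
  · exact continuousOn_const.add (continuousOn_const.div (by fun_prop) h0)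
  · have := slitPlane_ne_zero (h1 z hz)
    rw [exp_sub, hL' z hz, exp_log this, div_eq_iff this]
    have := h0 z hz
    field_simp
    ring

theorem hasLog_far {S : Set ℂ} {a : ℂ} (h : ∀ z ∈ S, ‖z‖ < ‖a‖) : HasLog S a := by
  have h1 : ∀ z ∈ S, 1 + -(z / a) ∈ slitPlane := fun z hz =>
    mem_slitPlane_of_norm_lt_one (by
      rw [norm_neg, norm_div, div_lt_one ((norm_nonneg _).trans_lt (h z hz))]; exact h z hz)
  refine ⟨fun z => log (-a) + log (1 + -(z / a)),
    continuousOn_const.add (ContinuousOn.clog (by fun_prop) h1), fun z hz => ?_⟩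
  have ha : a ≠ 0 := norm_pos_iff.1 ((norm_nonneg _).trans_lt (h z hz))
  rw [exp_add, exp_log (neg_ne_zero.2 ha), exp_log (slitPlane_ne_zero (h1 z hz))]
  field_simp
  ring

theorem hasLog_of_conn {S : Set ℂ} (hS : IsCompact S) (hc : IsPreconnected Sᶜ) {a : ℂ}
    (ha : a ∉ S) : HasLog S a := by
  obtain ⟨M, hM0, hM⟩ := hS.isBounded.exists_pos_norm_lt
  have hM' : ∀ z ∈ S, ‖z‖ < ‖(M : ℂ)‖ := by
    simpa [abs_of_pos hM0] using hM
  refine hc.induction₂' (fun x y => HasLog S x → HasLog S y) (fun x hx => ?_)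
    (fun _ _ _ _ _ _ h1 h2 h => h2 (h1 h)) (x := M) (fun h => (hM' _ h).false) ha (hasLog_far hM')
  obtain ⟨ε, hε, hb⟩ := Metric.isOpen_iff.1 hS.isClosed.isOpen_compl x hx
  have h1 : ∀ z ∈ S, ε ≤ ‖z - x‖ := fun z hz =>
    not_lt.1 fun h => hb (mem_ball_iff_norm.2 h) hz
  filter_upwards [mem_nhdsWithin_of_mem_nhds (ball_mem_nhds x (half_pos hε))] with y hy
  have h2 := mem_ball_iff_norm.1 hy
  refine ⟨fun h => h.move fun z hz => ?_, fun h => h.move fun z hz => ?_⟩
  · have := norm_sub_le_norm_sub_add_norm_sub z y x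
    linarith [h1 z hz]
  · rw [norm_sub_rev]
    linarith [h1 z hz]

theorem HasLog.union {A B : Set ℂ} (hA : IsClosed A) (hB : IsClosed B) (hd : ∀ z ∈ A, z ∉ B)
    {a : ℂ} (h1 : HasLog A a) (h2 : HasLog B a) : HasLog (A ∪ B) a := by
  classical
  obtain ⟨L, hL, hL'⟩ := h1
  obtain ⟨N, hN, hN'⟩ := h2
  refine ⟨fun z => if z ∈ A then L z else N z, ContinuousOn.union_of_isClosed
    (hL.congr fun z hz => if_pos hz) (hN.congr fun z hz => if_neg fun h => hd z h hz) hA hB, ?_⟩
  intro z hz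
  by_cases h : z ∈ A
  · simp only [h, if_true, hL' z h]
  · simp only [h, if_false, hN' z (hz.resolve_left h)]

theorem HasLog.conj {S : Set ℂ} {a : ℂ} (h : HasLog S (conj a)) :
    HasLog {z | conj z ∈ S} a := by
  obtain ⟨L, hL, hL'⟩ := h
  refine ⟨fun z => conj (L (conj z)), continuous_conj.comp_continuousOn
    (hL.comp continuous_conj.continuousOn fun z hz => hz), fun z hz => ?_⟩
  rw [exp_conj, hL' _ hz]
  simp

theorem not_hasLog_sphere {R : ℝ} (hR : 0 < R) : ¬ HasLog (sphere 0 R) 0 := by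
  rintro ⟨L, hL, hL'⟩
  have hm : ∀ t : ℝ, circleMap 0 R t ∈ sphere (0 : ℂ) R := circleMap_mem_sphere 0 hR.le
  have h := isCoveringMap_exp.eq_of_comp_eq (g₁ := fun t : ℝ => L (circleMap 0 R t))
    (g₂ := fun t : ℝ => L (circleMap 0 R 0) + t * I)
    (hL.comp_continuous (continuous_circleMap 0 R) hm) (by fun_prop) (by
      funext t
      apply Subtype.ext
      show exp (L (circleMap 0 R t)) = exp (L (circleMap 0 R 0) + t * I)
      rw [exp_add, hL' _ (hm t), hL' _ (hm 0)]
      simp [circleMap]) 0 (by simp)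
  have h2 := congrFun h (2 * Real.pi)
  have h3 : circleMap 0 R (2 * Real.pi) = circleMap 0 R 0 := by
    simpa using periodic_circleMap 0 R 0
  simp [h3] at h2

theorem conn_of_hasLog {S : Set ℂ} (hS : IsCompact S) (h : ∀ a ∉ S, HasLog S a) :
    IsPreconnected Sᶜ := by
  classical
  have key : ∀ u v : Set ℂ, IsOpen u → IsOpen v → Sᶜ ⊆ u ∪ v → Sᶜ ∩ (u ∩ v) = ∅ →
      ∀ a ∉ S, a ∉ v → ∀ R, ‖a‖ < R → ¬ sphere (0 : ℂ) R ⊆ Sᶜ ∩ v := by
    intro u v hu hv hc hd a haS hav R hR hs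
    obtain ⟨L, hL, hL'⟩ := h a haS
    obtain ⟨g, hg⟩ := ContinuousMap.exists_restrict_eq hS.isClosed
      (⟨fun z : S => L z, continuousOn_iff_continuous_domRestrict.1 hL⟩ : C(S, ℂ))
    have hg' : ∀ z ∈ S, exp (g z) = z - a := fun z hz => by
      rw [← hL' z hz]; exact congrArg exp (ContinuousMap.congr_fun hg ⟨z, hz⟩)
    have hd' : ∀ z ∈ Sᶜ ∩ v, z ∉ Sᶜ ∩ u := fun z h1 h2 =>
      (eq_empty_iff_forall_notMem.1 hd) z ⟨h1.1, h2.2, h1.2⟩
    let F : ℂ → ℂ := fun z => if z ∈ Sᶜ ∩ u then exp (g z) else z - a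
    have hF : ContinuousOn F univ := by
      have e : (univ : Set ℂ) = (Sᶜ ∩ u)ᶜ ∪ (Sᶜ ∩ v)ᶜ :=
        (eq_univ_of_forall fun z => or_iff_not_imp_right.2 fun h1 => hd' z (not_not.1 h1)).symm
      rw [e]
      refine ContinuousOn.union_of_isClosed
        ((continuousOn_id.sub continuousOn_const).congr fun z hz => if_neg hz)
        ((continuous_exp.comp g.continuous).continuousOn.congr fun z hz => ?_)
        (hS.isClosed.isOpen_compl.inter hu).isClosed_compl
        (hS.isClosed.isOpen_compl.inter hv).isClosed_compl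
      by_cases h1 : z ∈ Sᶜ ∩ u
      · exact if_pos h1
      · refine (if_neg h1).trans (hg' z ?_).symm
        by_contra h2
        exact (hc h2).elim (fun h3 => h1 ⟨h2, h3⟩) fun h3 => hz ⟨h2, h3⟩
    have hsc : IsSimplyConnected (univ : Set ℂ) := by
      have := (convex_univ (𝕜 := ℝ) (E := ℂ)).contractibleSpace univ_nonempty
      exact SimplyConnectedSpace.ofContractible _
    obtain ⟨M, hM, hM'⟩ := exists_continuousOn_eqOn_exp_comp hsc isOpen_univ hF (by
      rintro ⟨z, -, hz⟩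
      by_cases h1 : z ∈ Sᶜ ∩ u
      · exact exp_ne_zero _ ((if_pos h1).symm.trans hz)
      · have := sub_eq_zero.1 ((if_neg h1).symm.trans hz)
        exact h1 (this ▸ ⟨haS, (hc haS).resolve_right hav⟩))
    have h5 : HasLog (sphere 0 R) a := ⟨M, hM.mono (subset_univ _), fun z hz =>
      (hM' (mem_univ z)).trans (if_neg (hd' z (hs hz)))⟩
    refine not_hasLog_sphere ((norm_nonneg a).trans_lt hR) (h5.move fun z hz => ?_)
    rw [mem_sphere_iff_norm.1 hz]
    simpa using hR
  rw [isPreconnected_iff_subset_of_disjoint]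
  intro u v hu hv hc hd
  by_contra hn
  rw [not_or, not_subset, not_subset] at hn
  obtain ⟨⟨a, ha, hau⟩, b, hb, hbv⟩ := hn
  obtain ⟨M, hM⟩ := hS.isBounded.exists_norm_le
  set R := max M (max ‖a‖ ‖b‖) + 1 with hR
  have h1 : M < R ∧ ‖a‖ < R ∧ ‖b‖ < R := by
    rw [← max_lt_iff, ← max_lt_iff]; exact lt_add_one _
  have h2 : sphere (0 : ℂ) R ⊆ Sᶜ := fun z hz hzS => by
    have := hM z hzS
    rw [mem_sphere_zero_iff_norm.1 hz] at this
    exact this.not_gt h1.1
  have h3 := isPreconnected_sphere (by rw [rank_real_complex]; norm_num) (0 : ℂ) R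
  rcases isPreconnected_iff_subset_of_disjoint.1 h3 u v hu hv (h2.trans hc)
    (subset_eq_empty (inter_subset_inter_left _ h2) hd) with h4 | h4
  · exact key v u hv hu (union_comm u v ▸ hc) (inter_comm u v ▸ hd) a ha hau R h1.2.1
      (subset_inter h2 h4)
  · exact key u v hu hv hc hd b hb hbv R h1.2.2 (subset_inter h2 h4)

theorem conn_three {K : Set ℂ} (hK : IsCompact K) (h1 : ∀ z ∈ K, 1 < ‖z‖)
    (h2 : ∀ z ∈ K, conj z ∉ K) (h3 : IsPreconnected Kᶜ) :
    IsPreconnected {z : ℂ | 1 < ‖z‖ ∧ z ∉ K ∧ conj z ∉ K} := by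
  have hK' : IsCompact {z : ℂ | conj z ∈ K} := conjCLE.toHomeomorph.isCompact_preimage.2 hK
  have := conn_of_hasLog (S := closedBall 0 1 ∪ (K ∪ {z | conj z ∈ K}))
    ((isCompact_closedBall 0 1).union (hK.union hK')) fun a ha => ?_
  · convert this using 1
    ext z
    simp
  · simp only [mem_union, not_or, mem_closedBall_zero_iff, not_le] at ha
    refine HasLog.union isClosed_closedBall (hK.union hK').isClosed ?_
      (hasLog_far fun z hz => (mem_closedBall_zero_iff.1 hz).trans_lt ha.1)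
      (HasLog.union hK.isClosed hK'.isClosed h2 (hasLog_of_conn hK h3 ha.2.1)
        (hasLog_of_conn hK h3 ha.2.2).conj)
    rintro z hz (h | h)
    · exact (h1 z h).not_ge (mem_closedBall_zero_iff.1 hz)
    · exact (h1 _ h).not_ge (by simpa using hz)

end Pool.Agent.Lib.MP_0f7a95_an
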